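import Mathlib
import Pool.Agent.Run7.h767.ST.Val

/-!
# The Stickelberger elements `θ_S^T(r)`, `r ≤ 0`, by prime ideals

Let `K` be a number field, `𝔣` an ideal, `0 ≠ 𝔣 ≠ 𝓞 K`, `P` a set of real embeddings of `K`, `A` a
homomorphism from the ray class group modulo `𝔣 P` to a finite commutative group `G` (for an abelian
extension `L / K` with the group `G` and the modulus `𝔣 P`: the Artin map), `S` the set of the
archimedean places and of the prime divisors of `𝔣`, `T` a finite set of primes outside of `S`, and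
`r = -j` with a natural number `j`.

(1) The functions `L_S(χ, s)`, `χ` a character of `G`, have analytic continuations to `ℂ ∖ {1}`.

(2) Let `θ = θ_S^T(r) ∈ ℂ[G]` be the Stickelberger element,
`χ(θ) = ∏_(v ∈ T) (1 - χ⁻¹(v) N(v)^(1 - r)) L_S(r, χ⁻¹)` for all `χ`. For every `g ∈ G` and `γ > π / 2` the
coefficient of `g` in `θ` is `E_g(t) + O(1 / t)`,

  `E_g(t) = (1 / |G|) ∑_χ conj χ(g) ∏_(v ∈ T) (1 - χ⁻¹(v) N(v)^(1 - r)) exp (∑_τ χ⁻¹(τ) S_τ(t))`,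

  `S_τ(t) = ∑_(𝔭, n : A(𝔭 ^ n) = τ) (1 / n) N(𝔭)^(-n r) e^(i γ u) / Γ(1 + u)`, `u = n log N(𝔭) / t`.

The sums converge absolutely. This is unconditional; no continuation and no zeros occur on the right: the
prime ideals are sorted by their classes (Frobenius automorphisms).

(3) If `θ = ∑ a_g g` with integers `a_g` (by the theorem of Deligne–Ribet and Cassou-Noguès this is so in
Q1; it is not proved here), then `a_g` is the integer nearest to the real part of `E_g(t)`, for all `g` and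
all large `t`.
-/

set_option autoImplicit false
set_option linter.unusedSectionVars false

namespace Pool.Agent.Results.MP_59906e_nt.StickelbergerByPrimes

open NumberField Filter Topology Asymptotics

section defs

variable {K : Type} [Field K] [NumberField K] {G : Type} [Group G]

/-- `x` is positive at the real embeddings in `P`. -/
def Pos (P : Set (K →+* ℝ)) (x : 𝓞 K) : Prop := ∀ σ ∈ P, 0 < σ (x : K)

/-- On the ideals prime to `𝔣` the function `A` is a homomorphism from the ray class group modulo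
`𝔣 P` to `G` (its values at the other ideals are irrelevant). -/
structure IsRayHom (𝔣 : Ideal (𝓞 K)) (P : Set (K →+* ℝ)) (A : Ideal (𝓞 K) → G) : Prop where
  mul : ∀ 𝔞 𝔟, IsCoprime 𝔞 𝔣 → IsCoprime 𝔟 𝔣 → A (𝔞 * 𝔟) = A 𝔞 * A 𝔟
  ray : ∀ x : 𝓞 K, x - 1 ∈ 𝔣 → Pos P x → A (Ideal.span {x}) = 1

/-- `∑_(𝔞 prime to 𝔣) χ(A(𝔞)) N(𝔞)^(-s) = ∏_(v ∤ 𝔣) (1 - χ(A(v)) N(v)^(-s))⁻¹`. -/
noncomputable def lser (𝔣 : Ideal (𝓞 K)) (A : Ideal (𝓞 K) → G) (χ : G →* ℂˣ) (s : ℂ) : ℂ :=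
  ∑' 𝔞 : {𝔞 : Ideal (𝓞 K) // IsCoprime 𝔞 𝔣},
    ((χ (A 𝔞.1) : ℂˣ) : ℂ) * ((Ideal.absNorm 𝔞.1 : ℕ) : ℂ) ^ (-s)

/-- `Z` is the analytic continuation of `L_S(χ, s)` to `ℂ ∖ {1}`, `S` the archimedean places and the
primes which divide `𝔣`. -/
def IsL (𝔣 : Ideal (𝓞 K)) (A : Ideal (𝓞 K) → G) (χ : G →* ℂˣ) (Z : ℂ → ℂ) : Prop :=
  (∀ s : ℂ, s ≠ 1 → AnalyticAt ℂ Z s) ∧ ∀ s : ℂ, 1 < s.re → Z s = lser 𝔣 A χ s

/-- `χ(δ_T(-j)) = ∏_(v ∈ T) (1 - χ⁻¹(A(v)) N(v)^(1 + j))`, as a function of `χ⁻¹`. -/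
noncomputable def tfac (j : ℕ) (T : Finset (Ideal (𝓞 K))) (A : Ideal (𝓞 K) → G) (χ : G →* ℂˣ) : ℂ :=
  ∏ v ∈ T, (1 - ((χ (A v) : ℂˣ) : ℂ) * ((Ideal.absNorm v : ℕ) : ℂ) ^ (1 + j))

/-- `θ = θ_S^T(-j)`: `∑_g χ(g) θ_g = χ(δ_T(-j)) L_S(-j, χ⁻¹)` for all characters `χ`. -/
def IsStickelberger (j : ℕ) (𝔣 : Ideal (𝓞 K)) (T : Finset (Ideal (𝓞 K))) (A : Ideal (𝓞 K) → G)
    (θ : G → ℂ) : Prop :=
  ∀ (χ : G →* ℂˣ) (Z : ℂ → ℂ), IsL 𝔣 A χ⁻¹ Z →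
    ∑ᶠ g : G, ((χ g : ℂˣ) : ℂ) * θ g = tfac j T A χ⁻¹ * Z (0 - j)

open Classical in
/-- `1 / k` if `𝔞 = 𝔭 ^ k` with a prime ideal `𝔭` and `k ≥ 1`, and `0` if `𝔞` is not such a power:
`log N(rad 𝔞) / log N(𝔞)`. -/
noncomputable def wt (𝔞 : Ideal (𝓞 K)) : ℝ :=
  if IsPrimePow 𝔞 then Real.log (Ideal.absNorm 𝔞.radical) / Real.log (Ideal.absNorm 𝔞) else 0

/-- `(1 / i) N(𝔞)^j e^(i γ u) / Γ(1 + u)`, `u = log N(𝔞) / T`, for `𝔞 = 𝔭 ^ i` (`wt 𝔞 = 1 / i`). -/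
noncomputable def term (j : ℕ) (γ T : ℝ) (𝔞 : Ideal (𝓞 K)) : ℂ :=
  (wt 𝔞 : ℂ) * Complex.exp ((γ * (Real.log (Ideal.absNorm 𝔞) / T) : ℝ) * Complex.I) *
    ((Real.Gamma (1 + Real.log (Ideal.absNorm 𝔞) / T))⁻¹ : ℝ) * ((Ideal.absNorm 𝔞 : ℕ) : ℂ) ^ j

/-- `S_τ(T)`: the sum over the powers of prime ideals prime to `𝔣` with `A(𝔭 ^ i) = τ`. -/
noncomputable def primeSum (j : ℕ) (𝔣 : Ideal (𝓞 K)) (A : Ideal (𝓞 K) → G) (τ : G) (γ T : ℝ) : ℂ :=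
  ∑' 𝔞 : {𝔞 : Ideal (𝓞 K) // IsCoprime 𝔞 𝔣 ∧ A 𝔞 = τ}, term j γ T 𝔞.1

/-- `E_g(t) = (1 / |G|) ∑_χ conj χ(g) ∏_(v ∈ T) (1 - χ⁻¹(v) N(v)^(1 + j)) exp (∑_τ χ⁻¹(τ) S_τ(t))`. -/
noncomputable def approx (j : ℕ) (𝔣 : Ideal (𝓞 K)) (T : Finset (Ideal (𝓞 K)))
    (A : Ideal (𝓞 K) → G) (g : G) (γ t : ℝ) : ℂ :=
  (Nat.card G : ℂ)⁻¹ * ∑ᶠ χ : G →* ℂˣ, (starRingEnd ℂ) ((χ g : ℂˣ) : ℂ) * (tfac j T A χ⁻¹ *
    Complex.exp (∑ᶠ τ : G, ((χ⁻¹ τ : ℂˣ) : ℂ) * primeSum j 𝔣 A τ γ t))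

end defs

section proofs

variable {K : Type} [Field K] [NumberField K]

open Classical in
lemma term_eq (j : ℕ) (γ T : ℝ) (𝔞 : Ideal (𝓞 K)) : term j γ T 𝔞 = Run7.h767.ST.tj j γ T 𝔞 := by
  have h : (wt 𝔞 : ℝ) = Pool.Agent.Y773.VM 𝔞 / Run7.h767.ST.lg 𝔞 := by
    unfold wt Pool.Agent.Y773.VM Run7.h767.ST.lg
    split_ifs
    · rfl
    · rw [zero_div]
  unfold term
  rw [h]
  rfl

lemma tendsto_of_isBigO {f : ℝ → ℂ} {c : ℂ}
    (h : (fun T : ℝ => f T - c) =O[atTop] fun T : ℝ => 1 / T) : Tendsto f atTop (𝓝 c) := by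
  have h1 : Tendsto (fun T : ℝ => f T - c) atTop (𝓝 0) :=
    h.trans_tendsto (tendsto_const_nhds.div_atTop tendsto_id)
  have h2 := h1.add_const c
  simpa using h2

lemma round_of_tendsto {f : ℝ → ℂ} {m : ℤ} (h : Tendsto f atTop (𝓝 (m : ℂ))) :
    ∀ᶠ t in atTop, round (f t).re = m := by
  have h1 : Tendsto (fun t => (f t).re) atTop (𝓝 (m : ℝ)) := by
    have h2 := (Complex.continuous_re.tendsto (m : ℂ)).comp h
    rw [Complex.intCast_re] at h2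
    exact h2
  filter_upwards [Metric.tendsto_nhds.1 h1 (1 / 2) (by norm_num)] with t ht
  rw [Real.dist_eq, abs_lt] at ht
  rw [round_eq, Int.floor_eq_iff]
  constructor <;> linarith [ht.1, ht.2]

end proofs

/-- See the header. -/
theorem result (K : Type) [Field K] [NumberField K] (P : Set (K →+* ℝ)) (𝔣 : Ideal (𝓞 K))
    (hbot : 𝔣 ≠ ⊥) (htop : 𝔣 ≠ ⊤) (G : Type) [Group G] [Finite G] (hG : ∀ a b : G, a * b = b * a)
    (A : Ideal (𝓞 K) → G) (hA : IsRayHom 𝔣 P A) (T : Finset (Ideal (𝓞 K))) (j : ℕ) :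
    -- (1) the continuations
    (∀ χ : G →* ℂˣ, ∃ Z, IsL 𝔣 A χ Z) ∧
    -- (2) the coefficients of the Stickelberger element
    ∀ θ : G → ℂ, IsStickelberger j 𝔣 T A θ → ∀ γ : ℝ, Real.pi / 2 < γ →
      (∀ t > 0, Summable fun 𝔞 : Ideal (𝓞 K) => ‖term j γ t 𝔞‖) ∧
      (∀ g : G, (fun t : ℝ => approx j 𝔣 T A g γ t - θ g) =O[atTop] fun t : ℝ => 1 / t) ∧
      -- (3) integral coefficients
      ∀ a : G → ℤ, (∀ g, θ g = a g) → ∀ᶠ t in atTop, ∀ g, round (approx j 𝔣 T A g γ t).re = a g := by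
  classical
  have hA' : Run7.h767.ST.IsArt 𝔣 P A := ⟨hA.mul, hA.ray⟩
  have := Run7.h767.ST.finite_dual2 hG
  have := Fintype.ofFinite (G →* ℂˣ)
  have := Fintype.ofFinite G
  have hex : ∀ χ : G →* ℂˣ, ∃ Z, IsL 𝔣 A χ Z := fun χ => by
    obtain ⟨Φ, hΦ, -⟩ := Run7.h767.ST.lc_exists hbot htop hA' χ
    exact ⟨Φ, hΦ⟩
  refine ⟨hex, fun θ hθ γ hγ => ?_⟩
  choose Z hZ using hex
  have key : ∀ χ : G →* ℂˣ, (fun t : ℝ => Complex.exp (∑ᶠ τ : G, ((χ τ : ℂˣ) : ℂ) *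
      primeSum j 𝔣 A τ γ t) - Z χ (0 - j)) =O[atTop] fun t : ℝ => 1 / t := by
    intro χ
    refine (Run7.h767.ST.value_law_neg j hbot htop hA' χ (hZ χ) hγ).congr_left fun t => ?_
    have h : ∀ τ : G, primeSum j 𝔣 A τ γ t = Run7.h767.ST.SJ j 𝔣 A τ γ t := by
      intro τ
      unfold primeSum Run7.h767.ST.SJ
      exact tsum_congr fun 𝔞 => term_eq j γ t 𝔞.1
    simp only [h]
  have main : ∀ g : G, (fun t : ℝ => approx j 𝔣 T A g γ t - θ g) =O[atTop]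
      fun t : ℝ => 1 / t := by
    intro g
    have h1 : θ g = (Nat.card G : ℂ)⁻¹ * ∑ χ : G →* ℂˣ,
        (starRingEnd ℂ) ((χ g : ℂˣ) : ℂ) * (tfac j T A χ⁻¹ * Z χ⁻¹ (0 - j)) := by
      rw [← Run7.h767.ST.inversion hG θ g]
      congr 1
      refine Finset.sum_congr rfl fun χ _ => ?_
      have h2 := hθ χ (Z χ⁻¹) (hZ χ⁻¹)
      rw [finsum_eq_sum_of_fintype] at h2
      rw [h2]
    have h3 : (fun t : ℝ => approx j 𝔣 T A g γ t - θ g) =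
        fun t : ℝ => ∑ χ : G →* ℂˣ, ((Nat.card G : ℂ)⁻¹ * (starRingEnd ℂ) ((χ g : ℂˣ) : ℂ) *
          tfac j T A χ⁻¹) * (Complex.exp (∑ᶠ τ : G, ((χ⁻¹ τ : ℂˣ) : ℂ) *
            primeSum j 𝔣 A τ γ t) - Z χ⁻¹ (0 - j)) := by
      funext t
      unfold approx
      rw [h1, finsum_eq_sum_of_fintype, Finset.mul_sum, Finset.mul_sum, ← Finset.sum_sub_distrib]
      refine Finset.sum_congr rfl fun χ _ => ?_
      ring
    rw [h3]
    refine IsBigO.fun_sum fun χ _ => ?_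
    exact (key χ⁻¹).const_mul_left _
  refine ⟨fun t ht => ?_, main, fun a ha => ?_⟩
  · exact (Run7.h767.ST.tj_summable j γ ht).congr fun 𝔞 => by rw [term_eq]
  · rw [Filter.eventually_all]
    intro g
    refine round_of_tendsto ?_
    rw [← ha g]
    exact tendsto_of_isBigO (main g)

end Pool.Agent.Results.MP_59906e_nt.StickelbergerByPrimes
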